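import Pool.Agent.V5helper73.GC.Stm0

/-! # Project GC, job EXPM: from the tails to exponential moments -/

set_option autoImplicit false
open MeasureTheory Set

namespace V5helper58.GC

open V5helper73.GC

lemma cs (T L x : ℝ) (hL : 0 < L) (hx : 0 ≤ x) (hxL : x ≤ L) :
    T * x - (L - Real.sqrt (L ^ 2 - x ^ 2)) ≤ L * (Real.sqrt (1 + T ^ 2) - 1) := by
  have h0 : 0 ≤ L ^ 2 - x ^ 2 := by nlinarith
  set y := Real.sqrt (L ^ 2 - x ^ 2) with hy
  have hy2 : y ^ 2 = L ^ 2 - x ^ 2 := Real.sq_sqrt h0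
  set s := Real.sqrt (1 + T ^ 2) with hs
  have hs2 : s ^ 2 = 1 + T ^ 2 := Real.sq_sqrt (by positivity)
  have hs0 : 0 ≤ s := Real.sqrt_nonneg _
  have h1 : T * x + y ≤ L * s := by
    have h2 : (T * x + y) ^ 2 ≤ (L * s) ^ 2 := by
      have h3 : (L * s) ^ 2 - (T * x + y) ^ 2 = (x - T * y) ^ 2 := by
        rw [mul_pow, hs2]
        have : L ^ 2 = x ^ 2 + y ^ 2 := by linarith
        rw [this]
        ring
      nlinarith [sq_nonneg (x - T * y)]
    exact abs_le_of_sq_le_sq' h2 (by positivity) |>.2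
  linarith

theorem t_EXPM : S_EXPM := by
  intro T C₀ hT hC
  refine ⟨2 * Real.pi + C₀ * Real.exp T, by positivity, ?_⟩
  intro L f hL hf hb htail
  have hpi := Real.pi_pos
  obtain ⟨μ, hμ⟩ : ∃ μ, μ = (volume : Measure ℝ).restrict (Ioc 0 (2 * Real.pi)) := ⟨_, rfl⟩
  have hfin : IsFiniteMeasure μ := by
    rw [hμ]
    infer_instance
  obtain ⟨A, hA⟩ : ∃ A : ℕ → Set ℝ, A = fun k : ℕ => {θ : ℝ | (k : ℝ) ≤ f θ} := ⟨_, rfl⟩
  have hmeas : ∀ k, MeasurableSet (A k) := fun k => by
    rw [hA]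
    exact measurableSet_le measurable_const hf.measurable
  have hpt : ∀ θ, Real.exp (T * f θ) ≤
      1 + ∑ k ∈ Finset.range (⌊L⌋₊ + 1), (A k).indicator (fun _ => Real.exp (T * (k + 1))) θ := by
    intro θ
    have hnn : ∀ k : ℕ, 0 ≤ (A k).indicator (fun _ => Real.exp (T * (k + 1))) θ := fun k =>
      indicator_nonneg (fun _ _ => (Real.exp_pos _).le) θ
    by_cases h0 : 0 ≤ f θ
    · have h1 : ⌊f θ⌋₊ ∈ Finset.range (⌊L⌋₊ + 1) := by
        rw [Finset.mem_range, Nat.lt_succ_iff]
        exact Nat.floor_le_floor ((le_abs_self _).trans (hb θ))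
      have h2 : (A ⌊f θ⌋₊).indicator (fun _ => Real.exp (T * ((⌊f θ⌋₊ : ℝ) + 1))) θ ≤
          ∑ k ∈ Finset.range (⌊L⌋₊ + 1), (A k).indicator (fun _ => Real.exp (T * (k + 1))) θ :=
        Finset.single_le_sum (f := fun k : ℕ => (A k).indicator (fun _ => Real.exp (T * (k + 1))) θ)
          (fun k _ => hnn k) h1
      have h3 : θ ∈ A ⌊f θ⌋₊ := by
        rw [hA]
        exact Nat.floor_le h0
      rw [indicator_of_mem h3] at h2
      have h4 : Real.exp (T * f θ) ≤ Real.exp (T * ((⌊f θ⌋₊ : ℝ) + 1)) :=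
        Real.exp_le_exp.2 (mul_le_mul_of_nonneg_left (Nat.lt_floor_add_one _).le hT)
      linarith
    · have h1 : Real.exp (T * f θ) ≤ 1 := by
        rw [Real.exp_le_one_iff]
        exact mul_nonpos_of_nonneg_of_nonpos hT (not_le.1 h0).le
      have h2 := Finset.sum_nonneg (s := Finset.range (⌊L⌋₊ + 1)) fun k _ => hnn k
      linarith
  have hint1 : Integrable (fun θ => Real.exp (T * f θ)) μ := by
    rw [hμ]
    exact ((Real.continuous_exp.comp (continuous_const.mul hf)).integrableOn_Ioc)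
  have hint3 : ∀ k ∈ Finset.range (⌊L⌋₊ + 1),
      Integrable (fun θ => (A k).indicator (fun _ => Real.exp (T * (k + 1))) θ) μ := fun k _ =>
    (integrable_const _).indicator (hmeas k)
  have hint2 : Integrable (fun θ => 1 + ∑ k ∈ Finset.range (⌊L⌋₊ + 1),
      (A k).indicator (fun _ => Real.exp (T * (k + 1))) θ) μ :=
    (integrable_const _).add (integrable_finsetSum _ hint3)
  have hE : 1 ≤ Real.exp (L * (Real.sqrt (1 + T ^ 2) - 1)) := by
    apply Real.one_le_exp
    apply mul_nonneg hL.le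
    have : 1 ≤ Real.sqrt (1 + T ^ 2) := by
      rw [Real.one_le_sqrt]
      nlinarith [sq_nonneg T]
    linarith
  have hμA : ∀ k ∈ Finset.range (⌊L⌋₊ + 1), Real.exp (T * (k + 1)) * μ.real (A k) ≤
      C₀ * Real.exp T * Real.exp (L * (Real.sqrt (1 + T ^ 2) - 1)) := by
    intro k hk
    have hkL : (k : ℝ) ≤ L := by
      rw [Finset.mem_range, Nat.lt_succ_iff] at hk
      exact (Nat.le_floor_iff hL.le).1 hk
    have h1 := htail k (Nat.cast_nonneg k) hkL
    have h2 : μ.real (A k) ≤ C₀ * Real.exp (-(L - Real.sqrt (L ^ 2 - (k : ℝ) ^ 2))) := by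
      unfold Measure.real
      apply ENNReal.toReal_le_of_le_ofReal (by positivity)
      rw [hμ, Measure.restrict_apply (hmeas k), hA]
      refine le_trans (le_of_eq ?_) h1
      congr 1
      ext θ
      simp only [mem_inter_iff, mem_setOf_eq]
      tauto
    calc Real.exp (T * (k + 1)) * μ.real (A k)
        ≤ Real.exp (T * (k + 1)) * (C₀ * Real.exp (-(L - Real.sqrt (L ^ 2 - (k : ℝ) ^ 2)))) :=
          mul_le_mul_of_nonneg_left h2 (Real.exp_pos _).le
      _ = C₀ * Real.exp T * Real.exp (T * k - (L - Real.sqrt (L ^ 2 - (k : ℝ) ^ 2))) := by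
          have e1 : T * k - (L - Real.sqrt (L ^ 2 - (k : ℝ) ^ 2)) =
              T * k + -(L - Real.sqrt (L ^ 2 - (k : ℝ) ^ 2)) := by ring
          rw [e1, mul_add, mul_one, Real.exp_add, Real.exp_add (T * (k : ℝ)) (-(L - _))]
          ring
      _ ≤ _ := by
          apply mul_le_mul_of_nonneg_left _ (by positivity)
          exact Real.exp_le_exp.2 (cs T L k hL (Nat.cast_nonneg k) hkL)
  rw [intervalIntegral.integral_of_le (by positivity), ← hμ]
  calc ∫ θ, Real.exp (T * f θ) ∂μ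
      ≤ ∫ θ, (1 + ∑ k ∈ Finset.range (⌊L⌋₊ + 1),
          (A k).indicator (fun _ => Real.exp (T * (k + 1))) θ) ∂μ := integral_mono hint1 hint2 hpt
    _ = 2 * Real.pi + ∑ k ∈ Finset.range (⌊L⌋₊ + 1), Real.exp (T * (k + 1)) * μ.real (A k) := by
        rw [integral_add (integrable_const _) (integrable_finsetSum _ hint3),
          integral_finsetSum _ hint3]
        congr 1
        · rw [integral_const, hμ]
          simp [Measure.real, hpi.le]
        · refine Finset.sum_congr rfl fun k _ => ?_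
          rw [integral_indicator_const _ (hmeas k), smul_eq_mul, mul_comm]
    _ ≤ 2 * Real.pi + ∑ k ∈ Finset.range (⌊L⌋₊ + 1),
          C₀ * Real.exp T * Real.exp (L * (Real.sqrt (1 + T ^ 2) - 1)) := by
        exact add_le_add_right (Finset.sum_le_sum hμA) _
    _ = 2 * Real.pi + (⌊L⌋₊ + 1) * (C₀ * Real.exp T * Real.exp (L * (Real.sqrt (1 + T ^ 2) - 1))) := by
        rw [Finset.sum_const, Finset.card_range, nsmul_eq_mul]
        push_cast
        ring
    _ ≤ (2 * Real.pi + C₀ * Real.exp T) * (1 + L) * Real.exp (L * (Real.sqrt (1 + T ^ 2) - 1)) := by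
        have h1 : (⌊L⌋₊ : ℝ) ≤ L := Nat.floor_le hL.le
        set E := Real.exp (L * (Real.sqrt (1 + T ^ 2) - 1)) with hEdef
        have h2 : 2 * Real.pi ≤ 2 * Real.pi * (1 + L) * E := by
          have h3 : 2 * Real.pi * 1 * 1 ≤ 2 * Real.pi * (1 + L) * E := by
            apply mul_le_mul _ hE zero_le_one (by positivity)
            apply mul_le_mul_of_nonneg_left _ (by positivity)
            linarith
          linarith
        have h4 : ((⌊L⌋₊ : ℝ) + 1) * (C₀ * Real.exp T * E) ≤ (1 + L) * (C₀ * Real.exp T * E) := by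
          apply mul_le_mul_of_nonneg_right _ (by positivity)
          linarith
        calc _ ≤ 2 * Real.pi * (1 + L) * E + (1 + L) * (C₀ * Real.exp T * E) := add_le_add h2 h4
          _ = _ := by ring

end V5helper58.GC
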